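import Pool.Agent.Lib.MP_84ba36_lc.Basic

set_option autoImplicit false

open Cardinal

/-- Q1. For any countable discrete alphabet `K` with at least two letters (so for Baire space and
for Cantor space), the weak Lipschitz Baumgartner statement for `K`-valued sequences implies
`2 ^ ℵ₀ = 2 ^ ℵ₁`. -/
theorem Pool.Agent.Lib.MP_84ba36_lc.Variants.ContinuumPowers.result :
    ∀ (K : Type) [Countable K] [Nontrivial K] [TopologicalSpace K] [DiscreteTopology K],
      (∀ A B : Set (ℕ → K),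
        (∀ U : Set (ℕ → K), IsOpen U → U.Nonempty → #(A ∩ U : Set (ℕ → K)) = ℵ₁) →
        (∀ U : Set (ℕ → K), IsOpen U → U.Nonempty → #(B ∩ U : Set (ℕ → K)) = ℵ₁) →
        ∃ f : (ℕ → K) → (ℕ → K),
          (∀ (k : ℕ) (x y : ℕ → K), (∀ i < k, x i = y i) → ∀ i < k, f x i = f y i) ∧
          Set.InjOn f A ∧ Set.MapsTo f A B) →
      (2 : Cardinal.{0}) ^ ℵ₀ = 2 ^ ℵ₁ :=
  fun _ _ _ _ _ h => Pool.Agent.Lib.MP_84ba36_lc.two_pow_eq h
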