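import Pool.Agent.Lib.MP_84ba36_lc.Null

set_option autoImplicit false

open Cardinal MeasureTheory

/-- Q2. The weak Lipschitz Baumgartner statement for Baire space implies `add(N) > ℵ₁`. -/
theorem Pool.Agent.Lib.MP_84ba36_lc.Variants.NullAdditivity.result :
    (∀ A B : Set (ℕ → ℕ),
        (∀ U : Set (ℕ → ℕ), IsOpen U → U.Nonempty → #(A ∩ U : Set (ℕ → ℕ)) = ℵ₁) →
        (∀ U : Set (ℕ → ℕ), IsOpen U → U.Nonempty → #(B ∩ U : Set (ℕ → ℕ)) = ℵ₁) →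
        ∃ f : (ℕ → ℕ) → (ℕ → ℕ),
          (∀ (k : ℕ) (x y : ℕ → ℕ), (∀ i < k, x i = y i) → ∀ i < k, f x i = f y i) ∧
          Set.InjOn f A ∧ Set.MapsTo f A B) →
      ℵ₁ < sInf {κ : Cardinal.{0} | ∃ 𝒩 : Set (Set ℝ), #𝒩 = κ ∧ (∀ N ∈ 𝒩, volume N = 0) ∧
        volume (⋃₀ 𝒩) ≠ 0} :=
  fun h => Pool.Agent.Lib.MP_84ba36_lc.aleph_one_lt_add h
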